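import Pool.Agent.H58.ThetaPow

set_option autoImplicit false

namespace Pool.Agent.Results.MP_33ac70_nt.Disproof

open MeasureTheory Filter

/-- A divergent `ρ` for which almost every `θ ∈ [1/4, 3/8]` has only finitely many solutions. -/
theorem result :
    ∃ (k : ℕ) (ρ : ℕ → ℝ), 1 ≤ k ∧ (∀ m, 0 ≤ ρ m) ∧
      Tendsto (fun M : ℕ => ∑ m ∈ Finset.Icc 1 M, ρ m / m) atTop atTop ∧
      ∀ᵐ θ : ℝ, θ ∈ Set.Icc (1 / 4 : ℝ) (3 / 8) →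
        {x : (Fin k → ℕ) × ℕ | (∀ j, 1 ≤ x.1 j) ∧ 1 ≤ x.2 ∧
          |∑ j, (x.1 j : ℝ) ^ θ - (x.2 : ℝ)| ≤
            ρ (Finset.univ.sup x.1) / ((Finset.univ.sup x.1 : ℕ) : ℝ) ^ k}.Finite := by
  refine ⟨1, Pool.Agent.H58.ThetaPow.rho, le_rfl, Pool.Agent.H58.ThetaPow.rho_nonneg,
    Pool.Agent.H58.ThetaPow.tendsto_sum, ?_⟩
  filter_upwards [Pool.Agent.H58.ThetaPow.ae_A, Pool.Agent.H58.ThetaPow.ae_C] with θ hA hC hθ
  obtain ⟨B, hB⟩ := Pool.Agent.H58.ThetaPow.finite_sol hθ.1 hθ.2 hA hC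
  refine ((Set.Finite.pi' (fun _ : Fin 1 => Set.finite_Iic B)).prod (Set.finite_Iic B)).subset ?_
  rintro ⟨a, b⟩ ⟨h1, _, h3⟩
  have := hB (a 0) b (h1 0) (by simpa using h3)
  refine ⟨fun j => ?_, this.2⟩
  rw [Subsingleton.elim j 0]
  exact this.1

end Pool.Agent.Results.MP_33ac70_nt.Disproof
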